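import Mathlib
import Pool.Agent.Y418.BG.Num
import Pool.Agent.Y418.BG.Breaker

set_option autoImplicit false
set_option linter.unusedVariables false

/-!
# The clique game on `r`-element subsets with arbitrary biases

The board is the set of all `r`-element subsets of `N` vertices. In every round Maker claims `a`
free edges and then Breaker claims `b` free edges (all of them, if fewer are left), until all edges
are claimed. We determine, for all fixed `r ≥ 2` and all `a, b ≥ 1`, the order of magnitude of the
largest clique which Maker can occupy, with explicit constants.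
-/

namespace Pool.Agent.Results.MP_90b739_co.BiasedCliqueGames

open Finset

/-- A position: the set of edges claimed so far by Maker and the set claimed by Breaker. -/
structure Pos (N : ℕ) where
  maker : Finset (Finset (Fin N))
  breaker : Finset (Finset (Fin N))

/-- The board: all `r`-element subsets of the `N` vertices. -/
def board (r N : ℕ) : Finset (Finset (Fin N)) := powersetCard r univ

/-- The edges that nobody has claimed yet. -/
def free {N : ℕ} (r : ℕ) (p : Pos N) : Finset (Finset (Fin N)) :=
  board r N \ (p.maker ∪ p.breaker)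

/-- The position after `i` rounds, when Maker claims the set `Q i` and then Breaker claims the set
`R i` in round `i`. -/
def pos {N : ℕ} (Q R : ℕ → Finset (Finset (Fin N))) : ℕ → Pos N
  | 0 => ⟨∅, ∅⟩
  | i + 1 => ⟨(pos Q R i).maker ∪ Q i, (pos Q R i).breaker ∪ R i⟩

/-- A legal turn of Maker: he claims exactly `a` free edges, or all free edges, if fewer than `a`
are left. -/
def LegalMaker {N : ℕ} (a r : ℕ) (p : Pos N) (Q : Finset (Finset (Fin N))) : Prop :=
  Q ⊆ free r p ∧ Q.card = min a (free r p).card

/-- A legal turn of Breaker, after Maker has claimed `Q`: he claims exactly `b` of the edges which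
are still free, or all of them, if fewer than `b` are left. -/
def LegalBreaker {N : ℕ} (b r : ℕ) (p : Pos N) (Q R : Finset (Finset (Fin N))) : Prop :=
  R ⊆ free r p \ Q ∧ R.card = min b (free r p \ Q).card

/-- All turns of the play are legal. -/
def LegalPlay {N : ℕ} (a b r : ℕ) (Q R : ℕ → Finset (Finset (Fin N))) : Prop :=
  ∀ i, LegalMaker a r (pos Q R i) (Q i) ∧ LegalBreaker b r (pos Q R i) (Q i) (R i)

/-- There are `q` vertices all of whose `r`-element subsets are in `M`. -/
def HasClique {N : ℕ} (r q : ℕ) (M : Finset (Finset (Fin N))) : Prop :=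
  ∃ S : Finset (Fin N), S.card = q ∧ powersetCard r S ⊆ M

/-- Maker has a strategy `σ` which guarantees in every legal play, in which he follows `σ`, that at
the end, when all edges are claimed, he owns all `r`-element subsets of some `q` vertices. -/
def MakerCanOccupy (a b r N q : ℕ) : Prop :=
  ∃ σ : Pos N → Finset (Finset (Fin N)), (∀ p, LegalMaker a r p (σ p)) ∧
    ∀ Q R : ℕ → Finset (Finset (Fin N)), LegalPlay a b r Q R → (∀ i, Q i = σ (pos Q R i)) →
      ∃ i, free r (pos Q R i) = ∅ ∧ HasClique r q (pos Q R i).maker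

/-- Breaker has a strategy `τ` which guarantees in every legal play, in which he follows `τ`, that
at no time Maker owns all `r`-element subsets of some `q` vertices. -/
def BreakerCanPrevent (a b r N q : ℕ) : Prop :=
  ∃ τ : Pos N → Finset (Finset (Fin N)) → Finset (Finset (Fin N)),
    (∀ p Q, LegalBreaker b r p Q (τ p Q)) ∧
    ∀ Q R : ℕ → Finset (Finset (Fin N)), LegalPlay a b r Q R →
      (∀ i, R i = τ (pos Q R i) (Q i)) → ∀ i, ¬ HasClique r q (pos Q R i).maker

section maker

open Pool.Agent.Y418.BG.Play

variable {N : ℕ} {a b r q : ℕ}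

/-- a winning turn -/
def Good (a b r q : ℕ) (p : Pos N) (Q : Finset (Finset (Fin N))) : Prop :=
  LegalMaker a r p Q ∧ ∀ R, LegalBreaker b r p Q R →
    Forces a b (board r N) (HasClique r q) (p.maker ∪ Q) (p.breaker ∪ R)

lemma exists_legal (a r : ℕ) (p : Pos N) : ∃ Q, LegalMaker a r p Q :=
  Finset.exists_subset_card_eq (min_le_right a (free r p).card)

open Classical in
/-- the winning strategy -/
noncomputable def strat (a b r q : ℕ) (p : Pos N) : Finset (Finset (Fin N)) :=
  if h : ∃ Q, Good a b r q p Q then h.choose else (exists_legal a r p).choose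

lemma strat_legal (p : Pos N) : LegalMaker a r p (strat a b r q p) := by
  unfold strat
  split_ifs with h
  · exact h.choose_spec.1
  · exact (exists_legal a r p).choose_spec

lemma strat_good (p : Pos N) (h : ∃ Q, Good a b r q p Q) : Good a b r q p (strat a b r q p) := by
  unfold strat
  rw [dif_pos h]
  exact h.choose_spec

lemma exists_good {p : Pos N} (hf : Forces a b (board r N) (HasClique r q) p.maker p.breaker)
    (hne : free r p ≠ ∅) : ∃ Q, Good a b r q p Q := by
  obtain ⟨M, B⟩ := p
  cases hf with
  | done h0 hg => exact absurd h0 hne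
  | move h0 Q hQ hc h => exact ⟨Q, ⟨hQ, hc⟩, fun R hR => h R hR.1 hR.2⟩

lemma forces_goal {p : Pos N} (hf : Forces a b (board r N) (HasClique r q) p.maker p.breaker)
    (he : free r p = ∅) : HasClique r q p.maker := by
  obtain ⟨M, B⟩ := p
  cases hf with
  | done h0 hg => exact hg
  | move h0 Q hQ hc h => exact absurd he h0

lemma free_card_lt (ha : 1 ≤ a) {Q R : ℕ → Finset (Finset (Fin N))} (hL : LegalPlay a b r Q R)
    (i : ℕ) (hne : free r (pos Q R i) ≠ ∅) :
    (free r (pos Q R (i + 1))).card < (free r (pos Q R i)).card :=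
  card_lt_of_move hne (hL i).1.1 ha (hL i).1.2

/-- every play comes to its end -/
lemma exists_end (ha : 1 ≤ a) {Q R : ℕ → Finset (Finset (Fin N))} (hL : LegalPlay a b r Q R) :
    ∃ i, free r (pos Q R i) = ∅ := by
  by_contra hcon
  push Not at hcon
  have hle : ∀ i, (free r (pos Q R i)).card + i ≤ (free r (pos Q R 0)).card := by
    intro i
    induction i with
    | zero => simp
    | succ i ih =>
      have := free_card_lt ha hL i (hcon i).ne_empty
      omega
  have h1 := hle ((free r (pos Q R 0)).card + 1)
  omega

lemma canOccupy_of_forces (ha : 1 ≤ a)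
    (h : Forces a b (board r N) (HasClique r q) ∅ ∅) : MakerCanOccupy a b r N q := by
  classical
  refine ⟨strat a b r q, strat_legal, ?_⟩
  intro Q R hL hσ
  have hend := exists_end ha hL
  have hinv : ∀ i, (∀ j < i, free r (pos Q R j) ≠ ∅) →
      Forces a b (board r N) (HasClique r q) (pos Q R i).maker (pos Q R i).breaker := by
    intro i
    induction i with
    | zero => intro _; exact h
    | succ i ih =>
      intro hj
      have h1 := ih (fun j hji => hj j (by omega))
      have h2 := hj i (by omega)
      have h3 := strat_good _ (exists_good h1 h2)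
      rw [← hσ i] at h3
      exact h3.2 (R i) (hL i).2
  refine ⟨Nat.find hend, Nat.find_spec hend, ?_⟩
  exact forces_goal (hinv _ (fun j hj => Nat.find_min hend hj)) (Nat.find_spec hend)

lemma canOccupy_mono {q' : ℕ} (hq : q' ≤ q) (h : MakerCanOccupy a b r N q) :
    MakerCanOccupy a b r N q' := by
  obtain ⟨σ, h1, h2⟩ := h
  refine ⟨σ, h1, ?_⟩
  intro Q R hL hσ
  obtain ⟨i, h3, S, hS, hS'⟩ := h2 Q R hL hσ
  obtain ⟨T, hT, hTc⟩ := Finset.exists_subset_card_eq (show q' ≤ S.card by omega)
  exact ⟨i, h3, T, hTc, (powersetCard_mono hT).trans hS'⟩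

end maker

section breaker

open Pool.Agent.Y418.BG.Breaker

variable {N : ℕ} {a b r q : ℕ}

/-- the edge sets of the cliques on `q` vertices -/
def cliques (r q N : ℕ) : Finset (Finset (Finset (Fin N))) :=
  (powersetCard q (univ : Finset (Fin N))).image (powersetCard r)

/-- the base of the weights -/
noncomputable def gg (a b : ℕ) : ℝ := (1 + b : ℝ) ^ (1 / (a : ℝ))

lemma gg_pos : 0 < gg a b := Real.rpow_pos_of_pos (by positivity) _

lemma exists_reply' (ha : 1 ≤ a) (q : ℕ) (p : Pos N) (Q : Finset (Finset (Fin N))) :
    ∃ R, LegalBreaker b r p Q R ∧ ∀ Q' ⊆ (free r p \ Q) \ R, Q'.card ≤ a →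
      psi (gg a b) (cliques r q N) (p.maker ∪ Q ∪ Q') (p.breaker ∪ R)
        ≤ psi (gg a b) (cliques r q N) (p.maker ∪ Q) p.breaker := by
  have hd : Disjoint (free r p \ Q) (p.maker ∪ Q) := by
    rw [Finset.disjoint_left]
    intro e he he'
    unfold free at he
    simp only [mem_sdiff, mem_union, not_or] at he he'
    tauto
  obtain ⟨R, h1, h2, h3⟩ := exists_reply (F := cliques r q N) (b := b) ha (p.maker ∪ Q)
    p.breaker (free r p \ Q) hd
  exact ⟨R, ⟨h1, h2⟩, h3⟩

/-- the strategy of Breaker -/
noncomputable def reply (b r : ℕ) (ha : 1 ≤ a) (q : ℕ) (p : Pos N)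
    (Q : Finset (Finset (Fin N))) : Finset (Finset (Fin N)) :=
  (exists_reply' (b := b) (r := r) ha q p Q).choose

lemma pos_disjoint {Q R : ℕ → Finset (Finset (Fin N))} (hL : LegalPlay a b r Q R) (i : ℕ) :
    Disjoint (pos Q R i).maker (pos Q R i).breaker := by
  induction i with
  | zero => simp [pos]
  | succ i ih =>
    have h1 := (hL i).1.1
    have h2 := (hL i).2.1
    rw [Finset.disjoint_left] at ih ⊢
    intro e he he'
    simp only [pos, mem_union] at he he'
    rcases he with he | he
    · rcases he' with he' | he'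
      · exact ih he he'
      · have h3 := h2 he'
        unfold free at h3
        simp only [mem_sdiff, mem_union, not_or] at h3
        exact h3.1.2.1 he
    · rcases he' with he' | he'
      · have h3 := h1 he
        unfold free at h3
        simp only [mem_sdiff, mem_union, not_or] at h3
        exact h3.2.2 he'
      · have h3 := h2 he'
        rw [mem_sdiff] at h3
        exact h3.2 he

lemma canPrevent_of_small (ha : 1 ≤ a)
    (h : (1 + b : ℝ) * ((N.choose q : ℝ) * (1 / gg a b) ^ (q.choose r)) < 1) :
    BreakerCanPrevent a b r N q := by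
  refine ⟨reply b r ha q, fun p Q => (exists_reply' (b := b) (r := r) ha q p Q).choose_spec.1, ?_⟩
  intro Q R hL hτ
  have hg := gg_pos (a := a) (b := b)
  -- the weight at the beginning
  have h0 : psi (gg a b) (cliques r q N) ∅ ∅ ≤ (N.choose q : ℝ) * (1 / gg a b) ^ (q.choose r) := by
    unfold psi
    have h1 : ∀ A ∈ cliques r q N, w (gg a b) ∅ ∅ A ≤ (1 / gg a b) ^ (q.choose r) := by
      intro A hA
      unfold cliques at hA
      rw [mem_image] at hA
      obtain ⟨S, hS, rfl⟩ := hA
      rw [mem_powersetCard] at hS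
      unfold w
      simp [hS.2]
    refine (Finset.sum_le_sum h1).trans ?_
    rw [Finset.sum_const, nsmul_eq_mul]
    apply mul_le_mul_of_nonneg_right _ (by positivity)
    have h2 : (cliques r q N).card ≤ N.choose q := by
      unfold cliques
      refine Finset.card_image_le.trans ?_
      rw [card_powersetCard]; simp
    exact_mod_cast h2
  have hinv : ∀ i, psi (gg a b) (cliques r q N) ((pos Q R i).maker ∪ Q i) (pos Q R i).breaker
      < 1 := by
    intro i
    induction i with
    | zero =>
      have h1 : (Q 0).card ≤ a := by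
        rw [(hL 0).1.2]; exact min_le_left _ _
      have h2 := psi_first (F := cliques r q N) (b := b) ha (Q 0) h1
      simp only [pos, Finset.empty_union]
      have hB : (0 : ℝ) ≤ 1 + b := by positivity
      calc psi (gg a b) (cliques r q N) (Q 0) ∅
          ≤ (1 + b) * psi (gg a b) (cliques r q N) ∅ ∅ := h2
        _ ≤ (1 + b) * ((N.choose q : ℝ) * (1 / gg a b) ^ (q.choose r)) :=
            mul_le_mul_of_nonneg_left h0 hB
        _ < 1 := h
    | succ i ih =>
      have h1 := (exists_reply' (b := b) (r := r) ha q (pos Q R i) (Q i)).choose_spec.2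
      have h2 : (exists_reply' (b := b) (r := r) ha q (pos Q R i) (Q i)).choose = R i :=
        (hτ i).symm
      rw [h2] at h1
      have h3 : (Q (i + 1)).card ≤ a := by
        rw [(hL (i + 1)).1.2]; exact min_le_left _ _
      have h4 : Q (i + 1) ⊆ (free r (pos Q R i) \ Q i) \ R i := by
        intro e he
        have h5 := (hL (i + 1)).1.1 he
        unfold free at h5 ⊢
        simp only [pos, mem_sdiff, mem_union, not_or] at h5 ⊢
        exact ⟨⟨⟨h5.1, h5.2.1.1, h5.2.2.1⟩, h5.2.1.2⟩, h5.2.2.2⟩
      exact lt_of_le_of_lt (h1 _ h4 h3) ih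
  intro i hc
  obtain ⟨S, hS, hSM⟩ := hc
  have h1 : powersetCard r S ∈ cliques r q N := by
    unfold cliques
    exact mem_image_of_mem _ (mem_powersetCard.mpr ⟨subset_univ _, hS⟩)
  have h2 : Disjoint (powersetCard r S) (pos Q R i).breaker :=
    Finset.disjoint_of_subset_left hSM (pos_disjoint hL i)
  have h3 := psi_ge_one (F := cliques r q N) (g := gg a b) hg h1 h2
    (hSM.trans (Finset.subset_union_left (s₂ := Q i)))
  exact absurd (hinv i) (not_lt.mpr h3)

end breaker

/-- **The biased clique games on `r`-element sets.** Let `r ≥ 2`, `a, b ≥ 1` and `ε > 0`. For all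
sufficiently large `N`, in the game on all `r`-element subsets of `N` vertices in which Maker claims
`a` and Breaker `b` edges per turn (Maker moves first), Maker has a strategy which guarantees a
clique on `q` vertices for every
`q ≤ (1 - ε) * ((r-1)! / (r+1) * log_{1+b} N)^(1/(r-1))`, and Breaker has a strategy which prevents
every clique on `q` vertices for every `q ≥ (1 + ε) * (a * r! * log_{1+b} N)^(1/(r-1))`. -/
theorem result (a b r : ℕ) (ha : 1 ≤ a) (hb : 1 ≤ b) (hr : 2 ≤ r) (ε : ℝ) (hε : 0 < ε) :
    ∃ N₀ : ℕ, ∀ N : ℕ, N₀ ≤ N →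
      (∀ q : ℕ, (q : ℝ) ≤ (1 - ε) *
          (((r - 1).factorial : ℝ) / (r + 1) * Real.logb (1 + b) N) ^ (1 / ((r : ℝ) - 1)) →
        MakerCanOccupy a b r N q) ∧
      (∀ q : ℕ, (1 + ε) *
          ((a : ℝ) * (r.factorial : ℝ) * Real.logb (1 + b) N) ^ (1 / ((r : ℝ) - 1)) ≤ q →
        BreakerCanPrevent a b r N q) := by
  set ε' : ℝ := min ε (1 / 2) with hε'
  have h0 : 0 < ε' := lt_min hε (by norm_num)
  have h1 : ε' < 1 := lt_of_le_of_lt (min_le_right _ _) (by norm_num)
  have hM := Pool.Agent.Y418.BG.Num.eventually_par hb hr h0 h1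
  have hBr := Pool.Agent.Y418.BG.Breaker.eventually_small ha hb hr hε
  obtain ⟨N₀, hN₀⟩ := Filter.eventually_atTop.mp (hM.and (hBr.and (Filter.eventually_ge_atTop 1)))
  refine ⟨N₀, ?_⟩
  intro N hN
  obtain ⟨⟨n, hn, ⟨P⟩⟩, h3, h4⟩ := hN₀ N hN
  constructor
  · intro q hq
    have h5 : q ≤ ⌊(1 - ε') * Pool.Agent.Y418.BG.Num.ub b r N⌋₊ := by
      apply Nat.le_floor
      refine hq.trans ?_
      unfold Pool.Agent.Y418.BG.Num.ub
      apply mul_le_mul_of_nonneg_right
      · have : ε' ≤ ε := min_le_left _ _
        linarith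
      · apply Real.rpow_nonneg
        have hN1 : (1 : ℝ) ≤ N := by exact_mod_cast h4
        have hb1 : (1 : ℝ) < 1 + b := by
          have : (1 : ℝ) ≤ b := by exact_mod_cast hb
          linarith
        have := Real.logb_nonneg hb1 hN1
        positivity
    refine canOccupy_mono h5 (canOccupy_of_forces ha ?_)
    exact Pool.Agent.Y418.BG.Hyper.clique_forces ha P (by simpa using hn)
  · intro q hq
    exact canPrevent_of_small ha (h3 q hq)

end Pool.Agent.Results.MP_90b739_co.BiasedCliqueGames
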